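import Mathlib

set_option autoImplicit false

/-!
# Guessable but not strongly guessable functions

We give a semiring `R` and a function `f` on the words over a one-letter alphabet, computed by a
weighted automaton over `R` with one state, such that `f` is guessable but not strongly guessable,
and dually for co-guessability.

`R` is the semiring of all sets of elements of a monoid `M` of maps `Z → Z`, where `Z` consists of
the pairs `(n, b)` of a height `n : ℕ` and a bit `b`, and of a point at infinity.  Let `s n` be the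
constant map with value `(n, 0)`, and `f (a ^ n) = {s n}`.  The monoid contains `up`, raising
the height by one and setting the bit to `0`, `down`, lowering the height by one and setting the
bit to `0`, and for each `N` the map `ν N` which sends `(n + 1, b)` to `(n + 2, 0)` if `n ≠ N` and to
`(n + 2, 1)` if `n = N`, and `(0, b)` to infinity.  An element of `M` sending `(0, 0)` to `(1, 0)`
and `(1, 0)` to `(2, 0)` sends `(n, 0)` to `(n + 1, 0)` for all `n`, so that `f` is guessable with
`Q = {ε}` and `T = {ε, a}`.  But `ν N` sends `(n + 1, 0)` to `(n + 2, 0)` for all `n` except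
`n = N`, so for `Q = {a}` no finite `T` is sufficient.
-/

namespace Pool.Agent.Results.MP_2c9be0_lc.NotStronglyGuessable

/-- A finite-state weighted automaton over the semiring `S`, with input alphabet `A`. -/
structure WA (S : Type) [Semiring S] (A : Type) where
  n : ℕ
  init : Fin n → S
  trans : A → Matrix (Fin n) (Fin n) S
  final : Fin n → S

/-- The function computed by a weighted automaton: `a₁ ⋯ a_k ↦ init · M(a₁) ⋯ M(a_k) · final`. -/
def WA.val {S : Type} [Semiring S] {A : Type} (W : WA S A) (w : List A) : S :=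
  dotProduct (Matrix.vecMul W.init (w.map W.trans).prod) W.final

section Defs

variable {S : Type} [Semiring S] {A : Type}

/-- The set `Λ_{Q,T}`. -/
def Lam (f : List A → S) (Q : Finset (List A)) (T : Set (List A)) :
    Set ((Q → S) × (Q → A → Q → S)) :=
  {l | (∀ t ∈ T, f t = ∑ q : Q, l.1 q * f (q ++ t)) ∧
    ∀ (q : Q) (a : A), ∀ t ∈ T, f (q ++ [a] ++ t) = ∑ p : Q, l.2 q a p * f (p ++ t)}

/-- The set `Γ_{Q,T}`. -/
def Gam (f : List A → S) (Q : Set (List A)) (T : Finset (List A)) :
    Set ((T → S) × (T → A → T → S)) :=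
  {g | (∀ w ∈ Q, f w = ∑ t : T, f (w ++ t) * g.1 t) ∧
    ∀ (t : T) (a : A), ∀ w ∈ Q, f (w ++ ([a] ++ t)) = ∑ s : T, f (w ++ s) * g.2 s a t}

/-- `f` is guessable. -/
def Guessable (f : List A → S) : Prop :=
  ∃ Q T : Finset (List A), Q.Nonempty ∧ Lam f Q T = Lam f Q Set.univ ∧
    (Lam f Q Set.univ).Nonempty

/-- `f` is strongly guessable. -/
def StronglyGuessable (f : List A → S) : Prop :=
  Guessable f ∧ ∀ Q : Finset (List A), Q.Nonempty → ∃ T : Finset (List A),
    Lam f Q T = Lam f Q Set.univ

/-- `f` is co-guessable. -/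
def CoGuessable (f : List A → S) : Prop :=
  ∃ Q T : Finset (List A), T.Nonempty ∧ Gam f Q T = Gam f Set.univ T ∧
    (Gam f Set.univ T).Nonempty

/-- `f` is strongly co-guessable. -/
def StronglyCoGuessable (f : List A → S) : Prop :=
  CoGuessable f ∧ ∀ T : Finset (List A), T.Nonempty → ∃ Q : Finset (List A),
    Gam f Q T = Gam f Set.univ T

end Defs

/-! ### The monoid -/

/-- The points: pairs of a height and a bit, and a point at infinity. -/
abbrev Z : Type := Option (ℕ × Bool)

/-- The property of the non-constant maps of the monoid. -/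
def Good (m : Z → Z) : Prop :=
  m none = none ∧ ∀ n b p c, m (some (n, b)) = some (p, c) →
    (∀ j b', ∃ c', m (some (n + j, b')) = some (p + j, c')) ∧
      (p ≤ 1 → ∀ j b', m (some (n + j, b')) = some (p + j, false))

theorem good_comp {m₁ m₂ : Z → Z} (h₁ : Good m₁) (h₂ : Good m₂) : Good (m₁ ∘ m₂) := by
  refine ⟨by rw [Function.comp_apply, h₂.1, h₁.1], ?_⟩
  intro n b p c h
  rw [Function.comp_apply] at h
  cases hz : m₂ (some (n, b)) with
  | none => rw [hz, h₁.1] at h; exact absurd h (by simp)
  | some z =>
    obtain ⟨q, e⟩ := z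
    rw [hz] at h
    obtain ⟨a₁, a₂⟩ := h₂.2 n b q e hz
    obtain ⟨b₁, b₂⟩ := h₁.2 q e p c h
    refine ⟨?_, ?_⟩
    · intro j b'
      obtain ⟨c', hc'⟩ := a₁ j b'
      obtain ⟨c'', hc''⟩ := b₁ j c'
      exact ⟨c'', by rw [Function.comp_apply, hc', hc'']⟩
    · intro hp j b'
      obtain ⟨c', hc'⟩ := a₁ j b'
      rw [Function.comp_apply, hc']
      exact b₂ hp j c'

/-- The monoid `M`: the identity, the good maps and the constant maps. -/
def M : Submonoid (Function.End Z) where
  carrier := {m | m = 1 ∨ Good m ∨ ∃ z, ∀ x, m x = z}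
  one_mem' := Or.inl rfl
  mul_mem' := by
    rintro m₁ m₂ (rfl | h₁ | ⟨z, h₁⟩) h
    · rw [one_mul]; exact h
    · rcases h with rfl | h₂ | ⟨z', h₂⟩
      · rw [mul_one]; exact Or.inr (Or.inl h₁)
      · exact Or.inr (Or.inl (good_comp h₁ h₂))
      · exact Or.inr (Or.inr ⟨m₁ z', fun x => congrArg m₁ (h₂ x)⟩)
    · exact Or.inr (Or.inr ⟨z, fun x => h₁ (m₂ x)⟩)

/-- The constant map with value `(n, 0)`. -/
def s (n : ℕ) : M := ⟨fun _ => some (n, false), Or.inr (Or.inr ⟨_, fun _ => rfl⟩)⟩

/-- Raising the height. -/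
def up : M := ⟨fun x => x.map fun p => (p.1 + 1, false), Or.inr (Or.inl (by
  refine ⟨rfl, ?_⟩
  intro n b p c h
  have h' : some (n + 1, false) = some (p, c) := h
  simp only [Option.some.injEq, Prod.mk.injEq] at h'
  obtain ⟨rfl, rfl⟩ := h'
  have : ∀ j b', (Option.map (fun p : ℕ × Bool => (p.1 + 1, false)) (some (n + j, b'))) =
      some (n + 1 + j, false) := by
    intro j b'
    simp only [Option.map_some]
    rw [add_right_comm]
  exact ⟨fun j b' => ⟨false, this j b'⟩, fun _ j b' => this j b'⟩))⟩

/-- Lowering the height. -/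
def downFun : Z → Z
  | none => none
  | some (0, _) => none
  | some (n + 1, _) => some (n, false)

/-- Lowering the height. -/
def down : M := ⟨downFun, Or.inr (Or.inl (by
  refine ⟨rfl, ?_⟩
  intro n b p c h
  cases n with
  | zero => exact absurd h (by simp [downFun])
  | succ n =>
    have h' : some (n, false) = some (p, c) := h
    simp only [Option.some.injEq, Prod.mk.injEq] at h'
    obtain ⟨rfl, rfl⟩ := h'
    have : ∀ j b', downFun (some (n + 1 + j, b')) = some (n + j, false) := by
      intro j b'
      rw [add_right_comm]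
      rfl
    exact ⟨fun j b' => ⟨false, this j b'⟩, fun _ j b' => this j b'⟩))⟩

/-- The maps `ν N`. -/
def nuFun (N : ℕ) : Z → Z
  | none => none
  | some (0, _) => none
  | some (n + 1, _) => some (n + 2, decide (n = N))

/-- The maps `ν N`. -/
def nu (N : ℕ) : M := ⟨nuFun N, Or.inr (Or.inl (by
  refine ⟨rfl, ?_⟩
  intro n b p c h
  cases n with
  | zero => exact absurd h (by simp [nuFun])
  | succ n =>
    have h' : some (n + 2, decide (n = N)) = some (p, c) := h
    simp only [Option.some.injEq, Prod.mk.injEq] at h'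
    obtain ⟨rfl, rfl⟩ := h'
    refine ⟨fun j b' => ⟨decide (n + j = N), ?_⟩, fun hp => by omega⟩
    rw [add_right_comm, add_right_comm n 2 j]
    rfl))⟩

theorem mul_s (m : M) (n : ℕ) (k : ℕ) : m * s n = s k ↔ m.1 (some (n, false)) = some (k, false) := by
  constructor
  · intro h
    have := congrArg (fun g : M => g.1 none) h
    exact this
  · intro h
    apply Subtype.ext
    funext x
    exact h

theorem up_s (n : ℕ) : up * s n = s (n + 1) := (mul_s _ _ _).2 rfl

theorem down_s (n : ℕ) : down * s (n + 1) = s n := (mul_s _ _ _).2 rfl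

theorem nu_s {N n : ℕ} : nu N * s (n + 1) = s (n + 2) ↔ n ≠ N := by
  rw [mul_s]
  show some (n + 2, decide (n = N)) = some (n + 2, false) ↔ _
  simp

/-- An element acting as a translation on `s 0` and `s 1` acts as a translation on all `s n`. -/
theorem translate {m : M} {k : ℕ} (hk : k ≤ 1) (h0 : m * s 0 = s k) (h1 : m * s 1 = s (k + 1))
    (n : ℕ) : m * s n = s (k + n) := by
  rw [mul_s] at h0 h1 ⊢
  obtain ⟨m, hm⟩ := m
  change m (some (0, false)) = some (k, false) at h0
  change m (some (1, false)) = some (k + 1, false) at h1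
  show m (some (n, false)) = some (k + n, false)
  rcases hm with rfl | h | ⟨z, h⟩
  · have h0' : (some (0, false) : Z) = some (k, false) := h0
    have : k = 0 := by simpa using h0'.symm
    subst this
    rw [Nat.zero_add]
    rfl
  · have := (h.2 0 false k false h0).2 hk n false
    rwa [Nat.zero_add] at this
  · rw [h] at h0 h1
    rw [h0] at h1
    simp at h1

/-! ### The semiring -/

open scoped Pointwise

/-- The semiring of the sets of elements of `M`, with union and elementwise multiplication. -/
abbrev R : Type := SetSemiring M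

/-- The element `{m}` of the semiring. -/
def sg (m : M) : R := ({m} : Set M).up

theorem sg_mul (m m' : M) : sg m * sg m' = sg (m * m') := by
  unfold sg
  rw [SetSemiring.mul_def]
  simp

theorem sg_inj {m m' : M} (h : sg m = sg m') : m = m' := by
  have : ({m} : Set M) = {m'} := h
  exact Set.singleton_injective this

theorem one_eq : (1 : R) = sg 1 := rfl

theorem mul_sg {x : R} {m m' : M} (h : x * sg m = sg m') :
    (∃ g, g ∈ x.down) ∧ ∀ g ∈ x.down, g * m = m' := by
  have h1 : x.down * ({m} : Set M) = {m'} := by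
    have := congrArg SetSemiring.down h
    rwa [SetSemiring.down_mul] at this
  rw [Set.mul_singleton] at h1
  constructor
  · have : m' ∈ (fun g => g * m) '' x.down := by rw [h1]; rfl
    obtain ⟨g, hg, -⟩ := this
    exact ⟨g, hg⟩
  · intro g hg
    have : g * m ∈ (fun g => g * m) '' x.down := ⟨g, hg, rfl⟩
    rw [h1] at this
    exact this

theorem mul_sg_of {x : R} {m m' : M} (h : ∃ g, g ∈ x.down) (h' : ∀ g ∈ x.down, g * m = m') :
    x * sg m = sg m' := by
  have h1 : x.down * ({m} : Set M) = {m'} := by
    rw [Set.mul_singleton]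
    ext g
    constructor
    · rintro ⟨g', hg', rfl⟩
      exact h' g' hg'
    · intro hg
      obtain ⟨g', hg'⟩ := h
      exact ⟨g', hg', (h' g' hg').trans hg.symm⟩
  calc x * sg m = (x.down * ({m} : Set M)).up := rfl
    _ = _ := by rw [h1]; rfl

theorem translate' {x : R} {k : ℕ} (hk : k ≤ 1) (h0 : x * sg (s 0) = sg (s k))
    (h1 : x * sg (s 1) = sg (s (k + 1))) (n : ℕ) : x * sg (s n) = sg (s (k + n)) := by
  obtain ⟨a, b⟩ := mul_sg h0
  obtain ⟨-, c⟩ := mul_sg h1
  exact mul_sg_of a fun g hg => translate hk (b g hg) (c g hg) n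

/-! ### The function -/

/-- The function `f (a ^ n) = {s n}`. -/
def f (w : List Unit) : R := sg (s w.length)

/-- The one-state automaton computing `f`. -/
def W : WA R Unit where
  n := 1
  init := fun _ => 1
  trans := fun _ => Matrix.of fun _ _ => sg up
  final := fun _ => sg (s 0)

theorem pow_up (n : ℕ) : sg up ^ n * sg (s 0) = sg (s n) := by
  induction n with
  | zero => rw [pow_zero, one_mul]
  | succ n ih => rw [pow_succ', mul_assoc, ih, sg_mul, up_s]

theorem prod_W (w : List Unit) :
    (w.map fun _ => (Matrix.of fun _ _ => sg up : Matrix (Fin 1) (Fin 1) R)).prod =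
      Matrix.of fun _ _ => sg up ^ w.length := by
  induction w with
  | nil =>
    ext i j
    have : i = j := Subsingleton.elim (α := Fin 1) i j
    subst this
    simp
  | cons a w ih =>
    rw [List.map_cons, List.prod_cons, ih]
    ext i j
    rw [Matrix.mul_apply, List.length_cons, pow_succ', Fin.sum_univ_one]
    rfl

theorem val_W : W.val = f := by
  funext w
  have h : W.val w = dotProduct (Matrix.vecMul (fun _ : Fin 1 => (1 : R))
    (w.map fun _ => (Matrix.of fun _ _ => sg up : Matrix (Fin 1) (Fin 1) R)).prod)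
    (fun _ : Fin 1 => sg (s 0)) := rfl
  rw [h, prod_W]
  unfold f dotProduct Matrix.vecMul dotProduct
  rw [Fin.sum_univ_one, Fin.sum_univ_one]
  show (1 : R) * sg up ^ w.length * sg (s 0) = _
  rw [one_mul, pow_up]

theorem f_append (u v : List Unit) : f (u ++ v) = sg (s (u.length + v.length)) := by
  unfold f
  rw [List.length_append]

theorem sum_one {B C : Type} [AddCommMonoid C] (q₀ : B) (g : ({q₀} : Finset B) → C) :
    ∑ q, g q = g ⟨q₀, Finset.mem_singleton_self q₀⟩ := by
  have : Subsingleton ({q₀} : Finset B) := by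
    constructor
    rintro ⟨a, ha⟩ ⟨b, hb⟩
    rw [Finset.mem_singleton] at ha hb
    exact Subtype.ext (ha.trans hb.symm)
  exact Fintype.sum_subsingleton g _

/-- Membership in `Λ_{Q,T}` for `Q = {q₀}`. -/
theorem mem_Lam {q₀ : List Unit} {T : Set (List Unit)}
    {l : (({q₀} : Finset (List Unit)) → R) × (({q₀} : Finset (List Unit)) → Unit →
      ({q₀} : Finset (List Unit)) → R)} :
    l ∈ Lam f {q₀} T ↔
      (∀ t ∈ T, l.1 ⟨q₀, Finset.mem_singleton_self q₀⟩ * sg (s (q₀.length + t.length)) =
        sg (s t.length)) ∧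
      ∀ t ∈ T, l.2 ⟨q₀, Finset.mem_singleton_self q₀⟩ () ⟨q₀, Finset.mem_singleton_self q₀⟩ *
        sg (s (q₀.length + t.length)) = sg (s (q₀.length + t.length + 1)) := by
  unfold Lam
  constructor
  · rintro ⟨h1, h2⟩
    refine ⟨fun t ht => ?_, fun t ht => ?_⟩
    · have := h1 t ht
      rw [sum_one, f_append] at this
      exact this.symm
    · have := h2 ⟨q₀, Finset.mem_singleton_self q₀⟩ () t ht
      rw [sum_one, f_append, f_append] at this
      rw [← this]
      congr 2
      simp only [List.length_append, List.length_cons, List.length_nil]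
      omega
  · rintro ⟨h1, h2⟩
    refine ⟨fun t ht => ?_, ?_⟩
    · rw [sum_one, f_append, h1 t ht]
      rfl
    · rintro ⟨q, hq⟩ ⟨⟩ t ht
      rw [Finset.mem_singleton] at hq
      subst hq
      rw [sum_one, f_append, f_append, h2 t ht]
      congr 2
      simp only [List.length_append, List.length_cons, List.length_nil]
      omega

theorem guessable_f : Guessable f := by
  refine ⟨{[]}, {[], [()]}, Finset.singleton_nonempty _, ?_, ?_⟩
  · ext l
    rw [mem_Lam, mem_Lam]
    constructor
    · rintro ⟨h1, h2⟩
      have a0 := h1 [] (by simp)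
      have a1 := h1 [()] (by simp)
      have b0 := h2 [] (by simp)
      have b1 := h2 [()] (by simp)
      simp only [List.length_nil, List.length_cons, Nat.zero_add, Nat.add_zero] at a0 a1 b0 b1
      refine ⟨fun t _ => ?_, fun t _ => ?_⟩
      · have := translate' (Nat.zero_le 1) a0 a1 t.length
        simpa using this
      · have := translate' le_rfl b0 b1 t.length
        simp only [List.length_nil, Nat.zero_add]
        rw [this, Nat.add_comm]
    · rintro ⟨h1, h2⟩
      exact ⟨fun t _ => h1 t (Set.mem_univ _), fun t _ => h2 t (Set.mem_univ _)⟩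
  · refine ⟨(fun _ => 1, fun _ _ _ => sg up), mem_Lam.2 ⟨fun t _ => ?_, fun t _ => ?_⟩⟩
    · rw [one_mul, List.length_nil, Nat.zero_add]
    · rw [sg_mul, up_s]

theorem not_strongly_f : ¬ StronglyGuessable f := by
  rintro ⟨-, h⟩
  obtain ⟨T, hT⟩ := h {[()]} (Finset.singleton_nonempty _)
  obtain ⟨N, hN⟩ : ∃ N, N = T.sup List.length + 1 := ⟨_, rfl⟩
  have hlt : ∀ t ∈ T, t.length ≠ N := by
    intro t ht
    have := Finset.le_sup (f := List.length) ht
    omega
  have hmem : ((fun _ => sg down, fun _ _ _ => sg (nu N)) :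
      (({[()]} : Finset (List Unit)) → R) × (({[()]} : Finset (List Unit)) → Unit →
      ({[()]} : Finset (List Unit)) → R)) ∈ Lam f {[()]} T := by
    rw [mem_Lam]
    refine ⟨fun t _ => ?_, fun t ht => ?_⟩
    · rw [sg_mul, List.length_cons, List.length_nil, Nat.zero_add, Nat.add_comm, down_s]
    · rw [sg_mul, List.length_cons, List.length_nil, Nat.zero_add, Nat.add_comm 1,
        nu_s.2 (hlt t ht)]
  rw [hT, mem_Lam] at hmem
  have := hmem.2 (List.replicate N ()) (Set.mem_univ _)
  rw [sg_mul, List.length_cons, List.length_nil, Nat.zero_add, List.length_replicate,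
    Nat.add_comm 1] at this
  exact nu_s.1 (sg_inj this) rfl

/-! ### The dual statement -/

open MulOpposite

/-- The function `f`, with values in the opposite semiring. -/
def f' (w : List Unit) : Rᵐᵒᵖ := op (f w)

/-- The one-state automaton computing `f'`. -/
def W' : WA Rᵐᵒᵖ Unit where
  n := 1
  init := fun _ => op (sg (s 0))
  trans := fun _ => Matrix.of fun _ _ => op (sg up)
  final := fun _ => 1

theorem prod_W' (w : List Unit) :
    (w.map fun _ => (Matrix.of fun _ _ => op (sg up) : Matrix (Fin 1) (Fin 1) Rᵐᵒᵖ)).prod =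
      Matrix.of fun _ _ => op (sg up ^ w.length) := by
  induction w with
  | nil =>
    ext i j
    have : i = j := Subsingleton.elim (α := Fin 1) i j
    subst this
    simp
  | cons a w ih =>
    rw [List.map_cons, List.prod_cons, ih]
    ext i j
    rw [Matrix.mul_apply, List.length_cons, pow_succ, Fin.sum_univ_one]
    rfl

theorem val_W' : W'.val = f' := by
  funext w
  have h : W'.val w = dotProduct (Matrix.vecMul (fun _ : Fin 1 => op (sg (s 0)))
    (w.map fun _ => (Matrix.of fun _ _ => op (sg up) : Matrix (Fin 1) (Fin 1) Rᵐᵒᵖ)).prod)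
    (fun _ : Fin 1 => (1 : Rᵐᵒᵖ)) := rfl
  rw [h, prod_W']
  unfold f' f dotProduct Matrix.vecMul dotProduct
  rw [Fin.sum_univ_one, Fin.sum_univ_one]
  show op (sg (s 0)) * op (sg up ^ w.length) * 1 = _
  rw [mul_one, ← op_mul, pow_up]

theorem op_mul_iff (a b c : R) : op a = op b * op c ↔ c * b = a := by
  rw [← op_mul, op_inj]
  exact eq_comm

/-- Membership in `Γ_{Q,T}` for `T = {t₀}`. -/
theorem mem_Gam {t₀ : List Unit} {Q : Set (List Unit)}
    {l : (({t₀} : Finset (List Unit)) → Rᵐᵒᵖ) × (({t₀} : Finset (List Unit)) → Unit →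
      ({t₀} : Finset (List Unit)) → Rᵐᵒᵖ)} :
    l ∈ Gam f' Q {t₀} ↔
      (∀ w ∈ Q, unop (l.1 ⟨t₀, Finset.mem_singleton_self t₀⟩) * sg (s (t₀.length + w.length)) =
        sg (s w.length)) ∧
      ∀ w ∈ Q, unop (l.2 ⟨t₀, Finset.mem_singleton_self t₀⟩ ()
        ⟨t₀, Finset.mem_singleton_self t₀⟩) *
        sg (s (t₀.length + w.length)) = sg (s (t₀.length + w.length + 1)) := by
  unfold Gam
  constructor
  · rintro ⟨h1, h2⟩
    refine ⟨fun w hw => ?_, fun w hw => ?_⟩
    · have := h1 w hw
      rw [sum_one] at this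
      unfold f' at this
      rw [f_append, ← op_unop (l.1 ⟨t₀, Finset.mem_singleton_self t₀⟩), op_mul_iff] at this
      rw [Nat.add_comm]
      exact this
    · have := h2 ⟨t₀, Finset.mem_singleton_self t₀⟩ () w hw
      rw [sum_one] at this
      unfold f' at this
      rw [f_append, f_append, ← op_unop (l.2 ⟨t₀, Finset.mem_singleton_self t₀⟩ ()
        ⟨t₀, Finset.mem_singleton_self t₀⟩), op_mul_iff] at this
      rw [Nat.add_comm]
      rw [this]
      congr 2
  · rintro ⟨h1, h2⟩
    refine ⟨fun w hw => ?_, ?_⟩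
    · rw [sum_one]
      unfold f'
      rw [f_append, ← op_unop (l.1 ⟨t₀, Finset.mem_singleton_self t₀⟩), op_mul_iff,
        Nat.add_comm]
      exact h1 w hw
    · rintro ⟨q, hq⟩ ⟨⟩ w hw
      rw [Finset.mem_singleton] at hq
      subst hq
      rw [sum_one]
      unfold f'
      rw [f_append, f_append, ← op_unop (l.2 ⟨q, Finset.mem_singleton_self q⟩ ()
        ⟨q, Finset.mem_singleton_self q⟩), op_mul_iff, Nat.add_comm]
      rw [h2 w hw]
      congr 2
      simp only [List.length_append, List.length_cons, List.length_nil]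
      omega

theorem coguessable_f' : CoGuessable f' := by
  refine ⟨{[], [()]}, {[]}, Finset.singleton_nonempty _, ?_, ?_⟩
  · ext l
    rw [mem_Gam, mem_Gam]
    constructor
    · rintro ⟨h1, h2⟩
      have a0 := h1 [] (by simp)
      have a1 := h1 [()] (by simp)
      have b0 := h2 [] (by simp)
      have b1 := h2 [()] (by simp)
      simp only [List.length_nil, List.length_cons, Nat.zero_add, Nat.add_zero] at a0 a1 b0 b1
      refine ⟨fun t _ => ?_, fun t _ => ?_⟩
      · have := translate' (Nat.zero_le 1) a0 a1 t.length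
        simpa using this
      · have := translate' le_rfl b0 b1 t.length
        simp only [List.length_nil, Nat.zero_add]
        rw [this, Nat.add_comm]
    · rintro ⟨h1, h2⟩
      exact ⟨fun t _ => h1 t (Set.mem_univ _), fun t _ => h2 t (Set.mem_univ _)⟩
  · refine ⟨(fun _ => op 1, fun _ _ _ => op (sg up)), mem_Gam.2 ⟨fun t _ => ?_, fun t _ => ?_⟩⟩
    · rw [unop_op, one_mul, List.length_nil, Nat.zero_add]
    · rw [unop_op, sg_mul, up_s]

theorem not_strongly_f' : ¬ StronglyCoGuessable f' := by
  rintro ⟨-, h⟩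
  obtain ⟨T, hT⟩ := h {[()]} (Finset.singleton_nonempty _)
  obtain ⟨N, hN⟩ : ∃ N, N = T.sup List.length + 1 := ⟨_, rfl⟩
  have hlt : ∀ t ∈ T, t.length ≠ N := by
    intro t ht
    have := Finset.le_sup (f := List.length) ht
    omega
  have hmem : ((fun _ => op (sg down), fun _ _ _ => op (sg (nu N))) :
      (({[()]} : Finset (List Unit)) → Rᵐᵒᵖ) × (({[()]} : Finset (List Unit)) → Unit →
      ({[()]} : Finset (List Unit)) → Rᵐᵒᵖ)) ∈ Gam f' T {[()]} := by
    rw [mem_Gam]
    refine ⟨fun t _ => ?_, fun t ht => ?_⟩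
    · rw [unop_op, sg_mul, List.length_cons, List.length_nil, Nat.zero_add, Nat.add_comm, down_s]
    · rw [unop_op, sg_mul, List.length_cons, List.length_nil, Nat.zero_add, Nat.add_comm 1,
        nu_s.2 (hlt t ht)]
  rw [hT, mem_Gam] at hmem
  have := hmem.2 (List.replicate N ()) (Set.mem_univ _)
  rw [unop_op, sg_mul, List.length_cons, List.length_nil, Nat.zero_add, List.length_replicate,
    Nat.add_comm 1] at this
  exact nu_s.1 (sg_inj this) rfl

/-- **Main result.**  Both questions have a positive answer: over a suitable semiring and a finite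
(one-letter) alphabet there is a function computed by a weighted automaton which is guessable but
not strongly guessable, and there is one which is co-guessable but not strongly co-guessable. -/
theorem result :
    (∃ (S : Type) (_ : Semiring S) (A : Type) (_ : Finite A) (W : WA S A),
      Guessable W.val ∧ ¬ StronglyGuessable W.val) ∧
    ∃ (S : Type) (_ : Semiring S) (A : Type) (_ : Finite A) (W : WA S A),
      CoGuessable W.val ∧ ¬ StronglyCoGuessable W.val := by
  refine ⟨⟨R, inferInstance, Unit, inferInstance, W, ?_, ?_⟩,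
    ⟨Rᵐᵒᵖ, inferInstance, Unit, inferInstance, W', ?_, ?_⟩⟩
  · rw [val_W]; exact guessable_f
  · rw [val_W]; exact not_strongly_f
  · rw [val_W']; exact coguessable_f'
  · rw [val_W']; exact not_strongly_f'

end Pool.Agent.Results.MP_2c9be0_lc.NotStronglyGuessable
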